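import Pool.Agent.MP_20d318_ag.PR.Spec

/-! Pairs: row APS. -/

set_option autoImplicit false
set_option linter.unusedSectionVars false
set_option linter.style.haveILetI false

open AlgebraicGeometry CategoryTheory

namespace Pool.Agent.MP_20d318_ag.PR

open Pool.Agent.MP_fd6584_ag Pool.Agent.MP_fd6584_ag.Pj Pool.Agent.MP_fd6584_ag.Fn Pool.Agent.CBk
open Pool.Agent.MP_fd6584_ag.AG hiding deg_inv deg_congr deg_of_unit deg_mul deg_prod deg_zpow
  deg_eq_zero deg_nonneg deg_div deg_pow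
open Pool.Agent.MP_20d318_ag.AM Pool.Agent.MP_20d318_ag.AM.BirA
open Pool.Agent.MVg (H1)
open Pool.Agent.MVg.SchA

namespace Aps

theorem ge_pow {k K R : Type} [Field k] [Field K] [Algebra k K] [CommRing R] (Q : Place k K)
    (φ : R →+* K) (I : Ideal R) (h0 : ∀ u, Q.Ge 0 (φ u)) (h1 : ∀ u ∈ I, Q.Ge 1 (φ u)) (j : ℕ) :
    ∀ u ∈ I ^ j, Q.Ge j (φ u) := by
  induction j with
  | zero => exact fun u _ => h0 u
  | succ j ih =>
    intro u hu
    rw [pow_succ] at hu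
    refine Submodule.mul_induction_on hu (fun a ha b hb => ?_) fun a b ha hb => ?_
    · rw [map_mul, Nat.cast_succ]
      exact (ih a ha).mul (h1 b hb)
    · rw [map_add]
      exact ha.add hb

end Aps

theorem aps_stmt : ApsStmt := by
  intro k K J _ _ _ _ 𝒞 N ψ hX hψ h
  letI : Algebra k N.X.functionField := (const N.s).toAlgebra
  obtain ⟨n, j, d, c, j0, c0, hd⟩ := h
  obtain ⟨d', e'⟩ := tr (AlgEquiv.ofRingEquiv (f := N.e) N.e_const) d
  refine ⟨n, j, d', N.e c, j0, (map_ne_zero N.e).2 c0, fun Q hQ a ha h0 => ?_⟩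
  obtain ⟨y, q⟩ := Sch.exists_OA N hQ
  have hy : Codim1 y := (codim_iff MVg.codim_stmt hX y).2 (Or.inr ⟨Q, q.symm⟩)
  rw [← q] at ha
  choose u hu using ha
  obtain rfl := funext hu
  obtain ⟨w, hw, hE⟩ := hd y hy u
  have e1 : N.ev y w = N.e c * dD d' (fun i => N.ev y (u i)) ^ (2 * j) := by
    have := congrArg N.e hw
    rw [map_mul, map_pow] at this
    exact (e' fun i => algebraMap _ _ (u i)).symm ▸ this
  have g0 : ∀ v, Q.Ge 0 (N.ev y v) := fun v => (mem_plO' Q).1 (q ▸ ⟨v, rfl⟩)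
  have ne : N.ev y w ≠ 0 := e1 ▸ mul_ne_zero ((map_ne_zero N.e).2 c0) (pow_ne_zero _ h0)
  change 0 ≤ Q.ord (N.e c * dD d' (fun i => N.ev y (u i)) ^ (2 * j)) ∧
    (_ → (j : ℤ) ≤ Q.ord (N.e c * dD d' (fun i => N.ev y (u i)) ^ (2 * j)))
  rw [← e1]
  refine ⟨(g0 w).le ne, fun ho => ?_⟩
  obtain ⟨f, hf⟩ | hm := hE
  · rw [unit_iff, q, isU_plO', map_mul, map_pow, RingEquiv.apply_symm_apply] at hf
    obtain ⟨f1, f2⟩ := hf
    rw [Q.ord_mul hψ (right_ne_zero_of_mul f1), Q.ord_pow] at f2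
    exact absurd ⟨-Q.ord (N.e f), by push_cast at f2; omega⟩ ho
  · refine (Aps.ge_pow Q (N.ev y) _ g0 (fun v hv => ?_) j w hm).le ne
    rw [Q.ge1_iff, ← mem_mx_plO, ← q]
    refine ⟨⟨v, rfl⟩, fun hU => hv ?_⟩
    have := (isU_iff_isUnit (Sch.toOA N y v)).1 hU
    simpa using this.map (Sch.toOA N y).symm

end Pool.Agent.MP_20d318_ag.PR
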