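import Pool.Agent.MP_20d318_ag.PR.Mod

/-! Pairs: the assembly. -/

set_option autoImplicit false
set_option linter.unusedSectionVars false
set_option linter.style.haveILetI false

open AlgebraicGeometry CategoryTheory

namespace Pool.Agent.MP_20d318_ag.PR

open Pool.Agent.MP_fd6584_ag Pool.Agent.MP_fd6584_ag.Pj Pool.Agent.MP_fd6584_ag.Fn Pool.Agent.CBk
open Pool.Agent.MP_fd6584_ag.AG hiding deg_inv deg_congr deg_of_unit deg_mul deg_prod deg_zpow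
  deg_eq_zero deg_nonneg deg_div deg_pow
open Pool.Agent.MP_20d318_ag.KK Pool.Agent.MVg.SchA Pool.Agent.MP_20d318_ag.AM
open Pool.Agent.MP_20d318_ag.CH (Lv Ok cb Vol)
open Pool.Agent.MP_20d318_ag.AC (Iw)
open IntermediateField (adjoin)

/-- All the rows. -/
structure PM : Prop where
  brg : BrgStmt
  lpv : LpvStmt
  log : LogStmt
  ind : IndStmt
  ter : TerStmt
  crp : CrpStmt
  aps : ApsStmt

variable {k K M J J' : Type} [Field k] [NeZero (2 : k)] [IsAlgClosed k] [Field K] [Field M]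
  [Algebra k K] [Algebra k M] [Finite J] [Finite J'] {𝒞 : Charts k K J} {𝒞' : Charts k K J'}
  {a r d : ℕ} {T : Fin a → Set (Subalgebra k M)} {φ : Fin a → M} {l : Fin r → k}

variable (d T φ l) in
/-- The final pair. -/
def Fp : Prop :=
  ∃ (K Λ κ : Type) (_ : Field K) (_ : Algebra k K) (_ : Finite Λ) (_ : Fintype κ) (n : ℕ)
    (L : Lv k K Λ κ n) (ψ w : K) (ι : Fin a → M →ₐ[k] K) (ζ : Fin r → K)
    (b : Module.Basis (Fin (n + 2)) K Ω[K⁄k]), Fam k L.S ∧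
      (∀ O ∈ L.Y, Algebra.FormallySmooth k O) ∧ ψ ≠ 0 ∧ LP L.Y ψ b ∧
      Tg T φ l L.Y ψ {w} ι ζ ∧ w ^ d = ψ ∧ Iw L ∧ CEp L.Y ψ

theorem pqa {t : Fin a → Prop} (p : ∀ i, AC.P1 (T i) (φ i) (t i))
    (h5 : ∀ i : Fin a, i.1 + 1 < a + r → t i) (hr : r ≤ 1) (ha : 2 ≤ a + r)
    (hl : ∀ i, l i ≠ 0 ∧ l i ≠ 1) : AC.Pq T φ l := by
  obtain _ | a := a
  · omega
  refine AC.pq l a T φ (fun i => (p _).imp (h5 _ (by have := i.2; simp; omega))) ?_
  obtain _ | _ | r := r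
  · exact (p _).pq l
  · exact AC.pq1 ((p _).imp (h5 _ (by simp))) hl
  · omega

theorem PM.one (m : PM) (h : AC.Pq T φ l) : Fp 1 T φ l := by
  obtain ⟨K, Λ, κ, n, _, _, _, _, L, ι, ζ, o, iw, tg⟩ := h
  obtain ⟨j, j0, vol⟩ := o.vol
  obtain ⟨b, hb⟩ := m.lpv k K L.Y n L.y _ L.φ j o.ind
    ⟨fun x => isSeparable_algebraMap (⟨x, o.top ▸ IntermediateField.mem_top⟩ :
      adjoin k (Set.range L.y))⟩ j0 vol fun O hO => ⟨o.nice.loc O hO, by
      rw [div_div_cancel₀ j0, o.eqn O hO]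
      exact ⟨prod_mem fun i _ => o.sm O hO i, o.crd O hO, fun _ q =>
        (o.tri O hO q).imp_right fun ⟨P, e⟩ => ⟨P, e.symm⟩⟩⟩
  obtain ⟨R, r1, r2, r3, r4⟩ := iw.md.ce
  refine ⟨K, Λ, κ, _, _, inferInstance, inferInstance, n, L, L.φ, L.φ, ι, ζ, b, o.fam, o.smo, o.φne, hb,
    ⟨tg.ind, tg.eq, eq_top_iff.2 (tg.top.ge.trans (IntermediateField.adjoin.mono _ _ _
      (Set.union_subset_union_right _ (Set.union_subset_union_right _ (Set.empty_subset _))))),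
      tg.reg⟩, pow_one _, iw, _, rp_fin r1 r2, (Lat.isCone_cone _).cone_subset r3, fun x hx => ?_⟩
  obtain ⟨_, ⟨g, c, lf, rfl⟩, q⟩ := r4 x hx
  exact ⟨g, ⟨c, lf.ne, lf.sq⟩, q⟩

theorem PM.two (m : PM) (h : AC.Top T φ l) (h0 : ∀ i, φ i ≠ 0) : Fp 2 T φ l := by
  obtain ⟨K, Λ, κ, _, _, _, _, n, L, j, w, ι, ζ, fam, sm, ind, sep, j0, vol, tg, iw⟩ := h
  have w0 : w ≠ 0 := by
    obtain ⟨x, y, u⟩ := tg.ind
    have tr : ∀ i (c : k), ζ i - algebraMap k K c ≠ 0 := fun i c e =>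
      u.transcendental (.inr i) (by
        rw [Sum.elim_inr, sub_eq_zero.1 e]
        exact isAlgebraic_algebraMap c)
    refine ne_zero_pow two_ne_zero (tg.eq ▸ mul_ne_zero (Finset.prod_ne_zero_iff.2 fun i _ =>
      (map_ne_zero _).2 (h0 i)) (Finset.prod_ne_zero_iff.2 fun i _ => ?_))
    exact mul_ne_zero (mul_ne_zero (by simpa using tr i 0) (by simpa using tr i 1)) (tr i _)
  have ni := (mods.c.nice k K L.Y (fine_mp fam) sm).1
  obtain ⟨b, hb⟩ := m.lpv k K L.Y n L.y _ (w ^ 2) (j / w) ind sep (div_ne_zero j0 w0) vol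
    fun O hO => ⟨ni.loc O hO, by
      have q : (1 : K) ∉ mx O := fun z => z.2 isU_one
      rw [show w ^ 2 * (j / w / j) ^ 2 = 1 by field_simp]
      exact ⟨one_mem _, fun z => (q z).elim, fun z => (q z).elim⟩⟩
  obtain ⟨S, s1, s2, s3⟩ := iw.md.cE
  exact ⟨K, Λ, κ, _, _, inferInstance, inferInstance, n, L, w ^ 2, w, ι, ζ, b, fam, sm, pow_ne_zero 2 w0, hb,
    tg, rfl, iw, S, s1, s2, fun x hx => (s3 x hx).imp fun g q =>
      ⟨⟨g.1 w / w, div_ne_zero ((map_ne_zero _).2 w0) w0, by rw [map_pow]; field_simp⟩, q⟩⟩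

theorem PM.fin [CharZero k] (m : PM) {D₁ D₂ : Fin a → Derivation k M M}
    (hT : ∀ i, RS.Tower (T i)) (h1 : ∀ i, RS.BiAnti (T i) (D₁ i) (D₂ i) (φ i))
    (h2 : ∀ i, RS.SmoothZero (T i) (D₁ i) (D₂ i) (φ i))
    (h5 : ∀ i : Fin a, i.1 + 1 < a + r → TwoComp (T i) (D₁ i) (D₂ i) (φ i)) (hr : r ≤ 1)
    (ha : 2 ≤ a + r) (hl : ∀ i, l i ≠ 0 ∧ l i ≠ 1) (hd : d = 1 ∨ d = 2) : Fp d T φ l := by
  have p := fun i => AC.p1 (hT i) (h1 i) (h2 i)
  obtain rfl | rfl := hd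
  · exact m.one (pqa p h5 hr ha hl)
  · exact m.two (AC.fin hT h1 h2 p h5 hr ha hl) fun i =>
      let ⟨_, _, _, _, _, _, e, o, _⟩ := p i; e ▸ o.φne

theorem ct (N' : Model 𝒞') {X : Set (Subalgebra k K)} (h1 : Normal N'.X) (h2 : QFact N'.X)
    (h3 : ∀ P : Place k K, plO P ∈ Sch.pts 𝒞' → plO P ∈ X) : CT.Ct X (Sch.pts 𝒞') := by
  have hZ := nice_pts N' h1
  have pt : ∀ P : Place k K, plO P ∈ Sch.pts 𝒞' → ∃ y, Sch.OA N' y = plO P ∧ Codim1 y :=
    fun P hP => by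
      obtain ⟨y, hy⟩ := Sch.exists_OA N' hP
      exact ⟨y, hy, (codim_iff MVg.codim_stmt hZ y).2 (Or.inr ⟨P, hy.symm⟩)⟩
  refine ⟨hZ, h3, fun P hP => ?_, J', inferInstance, 𝒞', rfl⟩
  · obtain ⟨x, hx, hc⟩ := pt P hP
    obtain ⟨D, hD⟩ := h2 x hc fun h => plO_ne_top P (by rw [← hx, h, OA_gen])
    obtain ⟨E, hE⟩ := Sch.exists_cart D
    refine ⟨E.f, E.loc, fun P' hP' => ?_⟩
    obtain ⟨y, hy, hc'⟩ := pt P' hP'
    have h5 := hD y hc'
    rw [unit_iff, ← hE, hy, isU_plO'] at h5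
    have h0 : E.f (plO P') ≠ 0 := by
      rw [← hy, hE]
      exact (map_ne_zero _).2 (D.ne y)
    refine ((and_iff_right h0).symm.trans h5).trans (not_congr ⟨fun h => ?_, fun h => ?_⟩)
    · exact plO_inj (by rw [← hx, ← hy, h])
    · exact Sch.OA_inj (by rw [hx, hy, h])

theorem PM.all [CharZero k] (m : PM) (h : Fp d T φ l) :
    ∃ (X : Scheme.{0}) (_ : IsIntegral X) (s : X ⟶ Spec (CommRingCat.of k)) (ψ : X.functionField),
      IsProjective s ∧ Smooth s ∧ LogCY s ψ ∧ Cover s d T φ l ψ ∧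
        ∀ (X' : Scheme.{0}) [IsIntegral X'] (s' : X' ⟶ Spec (CommRingCat.of k)),
          IsProjective s' → Smooth s' ∨ Normal X' ∧ QFact X' →
            ∀ σ : X.functionField ≃+* X'.functionField, (∀ c, σ (const s c) = const s' c) →
              AntiPair s' (σ ψ) → NefPair s' (σ ψ) := by
  obtain ⟨K, Λ, κ, _, _, _, _, n, L, ψ, w, ι, ζ, b, fam, sm, p0, lp, tw, hw, hc, ce⟩ := h
  obtain ⟨J, _, 𝒞, hC, hB⟩ := chart_of fam
  replace hC : Sch.pts 𝒞 = L.Y := hC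
  obtain ⟨N⟩ := exists_model 𝒞
  have hO : ∀ q, Sch.OA N q ∈ L.Y := fun q => hC ▸ Sch.OA_mem q
  have ni := mods.c.nice k K L.Y (fine_mp fam) sm
  have r := ref_stmt sol_stmt k K _ ⟨ni.1, ni.2, hc.fd, hc.md.nl⟩
  refine ⟨N.X, N.integral, N.s, N.e.symm ψ, N.proj, N.smooth fun j => ?_,
    m.log k K J 𝒞 N ψ n b p0 (hC ▸ lp), ?_, fun X' _ s' h0 h1 σ a h2 => ?_⟩
  rotate_left 2
  · obtain ⟨J', _, 𝒞', ch, p1, p2, p3, p4, p5, p6⟩ := rev h0 (σ.symm.trans N.e) fun r => by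
      rw [← a, RingEquiv.trans_apply, σ.symm_apply_apply, N.e_const]
    let N' : Model 𝒞' := ⟨X', s', ch, h0, inferInstance, p1, p2, p3, p4, p5⟩
    obtain ⟨h3, h4⟩ := h1.elim (fun q => (BirA.nq N' q).2) id
    have e : σ (N.e.symm ψ) = N'.e.symm ψ := by
      rw [show N'.e = σ.symm.trans N.e from p6]
      rfl
    have hZ := nice_pts N' h3
    rw [e] at h2 ⊢
    exact m.brg k K J' 𝒞' N' ψ hZ (mod_stmt k K _ _ ψ r hc.md.fS ce (ct N' h3 h4
      (m.crp (m.ter m.ind) k K _ _ ψ n b ni.1 hZ p0 lp (m.aps k K J' 𝒞' N' ψ hZ p0 h2))))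
  · obtain ⟨G, g1, g2⟩ := hB j
    rw [g2]
    exact smG_stmt k K G g1 fun O g3 => sm O (hC ▸ Set.mem_iUnion.2 ⟨j, g2 ▸ g3⟩)
  · letI : Algebra k N.X.functionField := (const N.s).toAlgebra
    let ε : N.X.functionField ≃ₐ[k] K := AlgEquiv.ofRingEquiv (f := N.e) N.e_const
    have reg : ∀ q, ∀ f ∈ Sch.OA N q, RegAt q (ε.symm f) := fun q f ⟨u, hu⟩ =>
      ⟨u, ε.eq_symm_apply.2 hu⟩
    obtain ⟨x, y, hxy⟩ := tw.ind
    refine ⟨fun i => ε.symm.toAlgHom.comp (ι i), fun i => ε.symm (ζ i), ε.symm w, x, y, ?_, ?_, ?_,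
      ?_, fun q => ⟨fun i => ?_, fun i => ?_⟩⟩
    · have := hxy.map' (f := ε.symm.toAlgHom) ε.symm.injective
      rw [Sum.comp_elim, Sum.comp_elim] at this
      exact this
    · rw [← map_pow, hw]
      rfl
    · have := congrArg ε.symm tw.eq
      simp only [CH.cb, map_mul, map_prod, map_sub, map_one, AlgEquiv.commutes] at this
      exact this
    · have := congrArg (IntermediateField.map ε.symm.toAlgHom) tw.top
      rw [IntermediateField.adjoin_map, Set.image_union, Set.image_union, Set.image_iUnion,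
        ← Set.range_comp, Set.image_singleton, ← AlgHom.fieldRange_eq_map,
        AlgHom.fieldRange_eq_top.2 ε.symm.surjective] at this
      simp only [← Set.range_comp] at this
      exact this
    · obtain ⟨R, hR, hd⟩ := (tw.reg _ (hO q)).1 i
      exact ⟨R, hR, fun a ha => reg q _ (hd a ha)⟩
    · rw [← map_inv₀]
      exact ((tw.reg _ (hO q)).2 i).imp (reg q _) (reg q _)

end Pool.Agent.MP_20d318_ag.PR
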