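import Pool.Agent.MP_20d318_ag.PR.Asm

/-! The case of a square: the boundary is zero and the pair is a Calabi-Yau variety. -/

set_option autoImplicit false
set_option linter.style.haveILetI false

open AlgebraicGeometry CategoryTheory

namespace Pool.Agent.MP_20d318_ag.PR

open Pool.Agent.MP_fd6584_ag Pool.Agent.MP_fd6584_ag.Pj Pool.Agent.MP_20d318_ag.AM

variable {k : Type} [Field k] {X : Scheme.{0}} [IsIntegral X] {s : X ⟶ Spec (CommRingCat.of k)}
  {w : X.functionField}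

theorem ev_sq (h : w ≠ 0) (x : X) : Ev x (w ^ 2) := ⟨w⁻¹, by
  rw [← mul_pow, mul_inv_cancel₀ h, one_pow]
  exact ⟨one_ne_zero, ⟨1, map_one _⟩, 1, by rw [map_one, inv_one]⟩⟩

theorem LogCY.ne {ψ : X.functionField} (h : LogCY s ψ) : ψ ≠ 0 := by
  obtain ⟨n, b, hb⟩ := h
  obtain ⟨a, ha⟩ := (hb (genericPoint X)).2
  exact fun e => ha 0 (zero_mem _) (by rw [e, zero_mul, map_zero])

theorem nef_of (h : w ≠ 0) (p : NefPair s (w ^ 2)) : CC.NefConj s := by
  obtain ⟨a, R, P, b, c, d, e, f⟩ := p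
  have kp : ∀ g, Keeps (w ^ 2) g := fun g x _ => iff_of_true (ev_sq h _) (ev_sq h _)
  exact ⟨a, R, P, b, c, d, by simpa [kp] using e, fun g => f g (kp _)⟩

theorem anti_of (h : w ≠ 0) (p : AntiEff s) : AntiPair s (w ^ 2) := by
  obtain ⟨n, m, b, c, m0, c0, q⟩ := p
  refine ⟨n, m, b, c ^ 2, m0, pow_ne_zero 2 c0, fun x hx a => ?_⟩
  obtain ⟨u, hu⟩ := q x hx a
  exact ⟨u ^ 2, by rw [map_pow, hu, mul_pow, ← pow_mul, mul_comm m], Or.inl (ev_sq h x)⟩

theorem triv_of (hn : Normal X) (p : LogCY s (w ^ 2)) : TrivialCanonical s := by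
  have w0 : w ≠ 0 := ne_zero_pow two_ne_zero p.ne
  letI : Algebra k X.functionField := (const s).toAlgebra
  obtain ⟨n, b, hb⟩ := p
  have reg : ∀ (x : X) (f : X.functionField), RegAt x (f ^ 2) → RegAt x f := fun x f ⟨u, hu⟩ => by
    have := hn x
    exact IsIntegrallyClosed.exists_algebraMap_eq_of_isIntegral_pow two_pos
      (hu ▸ isIntegral_algebraMap)
  have key : ∀ x : X, (∀ a : Fin n → X.presheaf.stalk x, RegAt x (w *
      b.det fun i => KaehlerDifferential.D k X.functionField (algebraMap _ _ (a i)))) ∧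
      ∃ a : Fin n → X.presheaf.stalk x, UnitAt x (w *
        b.det fun i => KaehlerDifferential.D k X.functionField (algebraMap _ _ (a i))) := fun x => by
    have h1 := fun a => reg x _ (mul_pow w _ 2 ▸ (hb x).1 a)
    obtain ⟨a, ha⟩ := (hb x).2
    obtain ⟨u, hu⟩ := h1 a
    have h2 : IsUnit u := by_contra fun z => ha (u ^ 2)
      (Ideal.pow_mem_pow ((IsLocalRing.mem_maximalIdeal u).2 z) 2) (by rw [map_pow, hu, mul_pow])
    obtain ⟨v, rfl⟩ := h2
    exact ⟨h1, a, hu ▸ (v.isUnit.map _).ne_zero, ⟨_, hu⟩, ↑v⁻¹, by rw [← hu, map_units_inv]⟩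
  obtain _ | n := n
  · refine ⟨0, b, fun x => ⟨fun a => ⟨1, ?_⟩, Fin.elim0, ?_, 1, ?_⟩⟩ <;> simp
  refine ⟨n + 1, b.unitsSMul (Pi.mulSingle 0 (Units.mk0 w w0)⁻¹), fun x => ?_⟩
  rw [Module.Basis.det_unitsSMul, Finset.prod_pi_mulSingle' 0, if_pos (Finset.mem_univ _), inv_inv]
  obtain ⟨h1, a, h2, -, h3⟩ := key x
  exact ⟨h1, a, h2, h3⟩

theorem normal_of [NeZero (2 : k)] [IsAlgClosed k] (h0 : IsProjective s) (h1 : Smooth s) :
    Normal X := by
  letI : Algebra k X.functionField := (const s).toAlgebra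
  obtain ⟨J, _, 𝒞, ch, p1, p2, p3, p4, p5, -⟩ := rev h0 (RingEquiv.refl _) fun _ => rfl
  exact (BirA.nq (⟨X, s, ch, h0, inferInstance, p1, p2, p3, p4, p5⟩ : Model 𝒞) h1).2.1

/-- The conclusion for `d = 2` contains the statement on the Calabi-Yau variety. -/
theorem two_of [NeZero (2 : k)] [IsAlgClosed k] {M : Type} [Field M] [Algebra k M] {a m : ℕ}
    {T : Fin a → Set (Subalgebra k M)} {φ : Fin a → M} {l : Fin m → k} {ψ : X.functionField}
    (h0 : IsProjective s) (h1 : Smooth s) (h2 : LogCY s ψ) (h3 : Cover s 2 T φ l ψ)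
    (h4 : ∀ (X' : Scheme.{0}) [IsIntegral X'] (s' : X' ⟶ Spec (CommRingCat.of k)),
      IsProjective s' → Smooth s' ∨ Normal X' ∧ QFact X' →
        ∀ σ : X.functionField ≃+* X'.functionField, (∀ c, σ (const s c) = const s' c) →
          AntiPair s' (σ ψ) → NefPair s' (σ ψ)) :
    TrivialCanonical s ∧ KK.ProdCover s T φ l ∧ AllBir (fun _ _ s => CC.NefConj s) s := by
  obtain ⟨ι, ζ, w, x, y, a1, rfl, a3, a4, a5⟩ := h3
  have w0 : w ≠ 0 := ne_zero_pow two_ne_zero h2.ne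
  refine ⟨triv_of (normal_of h0 h1) h2, ⟨ι, ζ, w, x, y, a1, a3, a4, a5⟩, ?_⟩
  rintro X' _ s' b1 b2 b3 ⟨σ, b4⟩
  have := h4 X' s' b1 b2 σ b4
  rw [map_pow] at this
  exact nef_of ((map_ne_zero σ).2 w0) (this (anti_of ((map_ne_zero σ).2 w0) b3))

end Pool.Agent.MP_20d318_ag.PR
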