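import Pool.Agent.MP_20d318_ag.PR.Spec

/-! Pairs: the prime divisors of a model are prime divisors of the given variety. -/

set_option autoImplicit false
set_option linter.unusedSectionVars false

open AlgebraicGeometry CategoryTheory

namespace Pool.Agent.MP_20d318_ag.PR

open Pool.Agent.MP_fd6584_ag Pool.Agent.MP_fd6584_ag.Pj Pool.Agent.MP_fd6584_ag.Fn Pool.Agent.CBk
open Pool.Agent.MP_fd6584_ag.AG hiding deg_inv deg_congr deg_of_unit deg_mul deg_prod deg_zpow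
  deg_eq_zero deg_nonneg deg_div deg_pow
open Pool.Agent.MP_20d318_ag.AM Pool.Agent.MP_20d318_ag.AM.BirA
open Pool.Agent.MVg (H1)
open Pool.Agent.MP_20d318_ag.CH (Vol)
open Pool.Agent.MP_20d318_ag.Lat (RP)

namespace Crp

variable {k K : Type} [Field k] [Field K] [Algebra k K]

theorem le_one {P : Place k K} {S : K} (h0 : S ≠ 0) (h : Crd (plO P) S) : P.ord S ≤ 1 := by
  by_contra hc
  obtain ⟨δ, h1, h2⟩ := h ((mx_plO h0).2 (by omega))
  have ht : P.unif ∈ plO P := mem_plO_ord.2 (by rw [P.ord_unif]; omega)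
  have t0 := P.unif_ne
  have hg : S / P.unif ^ 2 ∈ plO P := mem_plO_ord.2 (by
    rw [P.ord_div h0 (pow_ne_zero 2 t0), P.ord_pow, P.ord_unif]
    omega)
  obtain ⟨g, eg⟩ : ∃ g, g = S / P.unif ^ 2 := ⟨_, rfl⟩
  rw [← eg] at hg
  have e : S = P.unif * (P.unif * g) := by
    rw [eg]
    field_simp
  have e2 : δ S = P.unif * (δ (P.unif * g) + g * δ P.unif) := by
    rw [e, Derivation.leibniz, smul_eq_mul, smul_eq_mul]
    ring
  have hw : δ (P.unif * g) + g * δ P.unif ∈ plO P :=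
    add_mem (h1 _ (mul_mem ht hg)) (mul_mem hg (h1 _ ht))
  obtain ⟨a1, a2⟩ := (isU_plO' P).1 h2
  rw [e2] at a1 a2
  rw [P.ord_mul t0 (right_ne_zero_of_mul a1), P.ord_unif] at a2
  have := mem_plO_ord.1 hw
  omega

end Crp

theorem crp_stmt : CrpStmt := by
  intro hT k K _ _ _ _ _ X Z ψ n b hX hZ ψ0 hL hA P hP
  obtain ⟨n', j, d, c, j0, c0, hA⟩ := hA
  obtain rfl : n' = n + 2 := by
    simpa using (Module.finrank_eq_card_basis d).symm.trans (Module.finrank_eq_card_basis b)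
  have e0 : ∀ a, dD d a = d.det b * dD b a := fun a =>
    DFunLike.congr_fun (d.det.eq_smul_basis_det b) _
  have d0 : d.det b ≠ 0 := (d.isUnit_det b).ne_zero
  obtain ⟨c', ec⟩ : ∃ c', c' = c * d.det b ^ (2 * j) / ψ ^ j := ⟨_, rfl⟩
  have c'0 : c' ≠ 0 := by
    rw [ec]
    exact div_ne_zero (mul_ne_zero c0 (pow_ne_zero _ d0)) (pow_ne_zero _ ψ0)
  have e : ∀ a, c * dD d a ^ (2 * j) = c' * (ψ * dD b a ^ 2) ^ j := fun a => by
    rw [e0, ec, mul_pow, mul_pow, ← pow_mul]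
    field_simp
  have hB : ∀ Q : Place k K, plO Q ∈ Z → ∀ a : Fin (n + 2) → K, (∀ i, a i ∈ plO Q) →
      dD b a ≠ 0 → 0 ≤ Q.ord c' + j * Q.ord (ψ * dD b a ^ 2) ∧
        (¬ Even (Q.ord ψ) → (j : ℤ) ≤ Q.ord c' + j * Q.ord (ψ * dD b a ^ 2)) := by
    intro Q hQ a ha a0
    have h := hA Q hQ a ha (by rw [e0]; exact mul_ne_zero d0 a0)
    rwa [e, Q.ord_mul c'0 (pow_ne_zero _ (mul_ne_zero ψ0 (pow_ne_zero 2 a0))), Q.ord_pow] at h
  have hout : ∀ Q : Place k K, plO Q ∈ Z → plO Q ∉ X → 0 < Q.ord c' := by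
    intro Q hQ hn
    obtain ⟨G, g1, -, g2⟩ := hZ.toFine.chart hQ
    by_contra hc
    refine hn (hT k K X ψ n b Q G hX ψ0 hL g1 g2 (hZ.toFine.frac hQ) fun a ha => ?_)
    by_cases a0 : dD b a = 0
    · rw [a0, zero_pow two_ne_zero, mul_zero]
      exact zero_mem _
    · have h1 := (hB Q hQ a ha a0).1
      have j1 : (0 : ℤ) < j := by exact_mod_cast j0
      exact mem_plO_ord.2 (nonneg_of_mul_nonneg_right (by linarith) j1)
  have hin : ∀ Q : Place k K, plO Q ∈ Z → 0 ≤ Q.ord c' := by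
    intro Q hQ
    by_cases hq : plO Q ∈ X
    · obtain ⟨a, ha, a0, -, h1⟩ := hL _ hq
      have h2 := mem_plO_ord.1 h1.mem
      have h3 := Crp.le_one (mul_ne_zero ψ0 (pow_ne_zero 2 a0)) h1.crd
      obtain ⟨h4, h5⟩ := hB Q hQ a ha a0
      have h6 : Q.ord (ψ * dD b a ^ 2) = Q.ord ψ + 2 * Q.ord (dD b a) := by
        rw [Q.ord_mul ψ0 (pow_ne_zero 2 a0), Q.ord_pow]
        rfl
      rcases (by omega : Q.ord (ψ * dD b a ^ 2) = 0 ∨ Q.ord (ψ * dD b a ^ 2) = 1) with h | h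
      · rwa [h, mul_zero, add_zero] at h4
      · have h7 := h5 (by
          rintro ⟨r, hr⟩
          omega)
        rw [h, mul_one] at h7
        omega
    · exact (hout Q hQ hq).le
  obtain ⟨t, ht⟩ := Algebra.mem_bot.1 (PtdA.const hZ.toGood (φ := c') fun O hO =>
    hZ.krull hO fun Q hQ _ => mem_plO_ord.2 (hin Q hQ))
  have u0 : IsU (plO P) c' := ht ▸ isU_const fun z => c'0 (by rw [← ht, z, map_zero])
  by_contra hn
  have h1 := hout P hP hn
  have h2 := ((isU_plO' P).1 u0).2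
  omega

end Pool.Agent.MP_20d318_ag.PR
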