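import Pool.Agent.MP_20d318_ag.PR.Spec

/-! Pairs, row IND: the other coordinates of a generating frame are independent on the divisor. -/

set_option autoImplicit false
set_option linter.unusedSectionVars false

open AlgebraicGeometry CategoryTheory

namespace Pool.Agent.MP_20d318_ag.PR

open Pool.Agent.MP_fd6584_ag Pool.Agent.MP_fd6584_ag.Pj Pool.Agent.MP_fd6584_ag.Fn Pool.Agent.CBk
open Pool.Agent.MP_fd6584_ag.AG hiding deg_inv deg_congr deg_of_unit deg_mul deg_prod deg_zpow
  deg_eq_zero deg_nonneg deg_div deg_pow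
open Pool.Agent.MP_20d318_ag.AM Pool.Agent.MP_20d318_ag.AM.BirA

namespace IndA

open MvPolynomial

variable {k K : Type} [Field k] [Field K] [Algebra k K] {m : ℕ}

theorem chain (δ : Derivation k K K) (r : Fin m → K) (j : Fin m) (d : K) (h1 : δ (r j) = d)
    (h2 : ∀ l, l ≠ j → δ (r l) = 0) (p : MvPolynomial (Fin m) k) :
    δ (aeval r p) = aeval r (pderiv j p) * d := by
  induction p using MvPolynomial.induction_on with
  | C a => simp
  | add p q hp hq => simp only [map_add, hp, hq]; ring
  | mul_X p l hp =>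
    simp only [map_mul, aeval_X, Derivation.leibniz, hp, smul_eq_mul, map_add]
    by_cases e : l = j
    · rw [e, h1, pderiv_X_self, map_one]; ring
    · rw [h2 l e, pderiv_X_of_ne e, map_zero]; ring

theorem deg_pd (i : Fin m) (p : MvPolynomial (Fin m) k) (h : pderiv i p ≠ 0) :
    (pderiv i p).totalDegree < p.totalDegree := by
  obtain ⟨u, hu, e⟩ := Finset.exists_mem_eq_sup _ (support_nonempty.2 h)
    fun s : Fin m →₀ ℕ => s.sum fun _ e => e
  rw [mem_support_iff, coeff_pderiv] at hu
  have h2 := le_totalDegree (mem_support_iff.2 (left_ne_zero_of_mul hu))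
  rw [Finsupp.sum_add_index' (fun _ => rfl) (fun _ _ _ => rfl), Finsupp.sum_single_index rfl] at h2
  rw [totalDegree, e]
  omega

theorem const [CharZero k] (p : MvPolynomial (Fin m) k) (h : ∀ i, pderiv i p = 0) :
    p = C (coeff 0 p) := by
  ext u
  rw [coeff_C]
  split_ifs with h0
  · rw [h0]
  · obtain ⟨i, hi⟩ : ∃ i, u i ≠ 0 := by
      by_contra hc
      exact h0 (by ext i; by_contra h1; exact hc ⟨i, fun h2 => h1 (by simp [h2])⟩)
    have h1 := coeff_pderiv (i := i) p (u - Finsupp.single i 1)
    rw [h i, coeff_zero,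
      tsub_add_cancel_of_le (Finsupp.single_le_iff.2 (show 1 ≤ u i by omega))] at h1
    exact (mul_eq_zero.1 h1.symm).resolve_right (Nat.cast_add_one_ne_zero _)

theorem slot (b : Module.Basis (Fin m) K Ω[K⁄k]) (a : Fin m → K) (s : Fin m) :
    ∃ δ : Derivation k K K, (∀ g, δ g = dD b (Function.update a s g)) ∧ δ (a s) = dD b a ∧
      ∀ l, l ≠ s → δ (a l) = 0 := by
  have h : ∀ g, ((b.det.toMultilinearMap.toLinearMap (fun i => KaehlerDifferential.D k K (a i))
      s).compDer (KaehlerDifferential.D k K)) g = dD b (Function.update a s g) := fun g =>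
    congrArg b.det (Function.comp_update (KaehlerDifferential.D k K) a s g).symm
  refine ⟨_, h, by rw [h, Function.update_eq_self], fun l hl => ?_⟩
  exact b.det.map_update_self (fun i => KaehlerDifferential.D k K (a i)) hl.symm

end IndA

open IndA MvPolynomial in
theorem ind_stmt : IndStmt := by
  intro k K _ _ _ _ n b P a i ha ht h0 hm
  refine ⟨fun j => ha _, fun p => ?_⟩
  induction hp : p.totalDegree using Nat.strong_induction_on generalizing p with | h N ih => ?_
  intro p0
  by_cases hc : ∀ j, pderiv j p = 0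
  · rw [const p hc] at p0 ⊢
    rw [aeval_C]
    exact isU_const fun e => p0 (by rw [e, map_zero])
  obtain ⟨j, hj⟩ := not_forall.1 hc
  have u := ih _ (hp ▸ deg_pd j p hj) _ rfl hj
  obtain ⟨δ, d1, d2, d3⟩ := slot b a (i.succAbove j)
  have c := chain δ (fun j => a (i.succAbove j)) j _ d2
    (fun l hl => d3 _ fun e => hl (Fin.succAbove_right_injective e)) p
  have fm : aeval (fun j => a (i.succAbove j)) p ∈ plO P := by
    rw [aeval_def, eval₂_eq']
    exact sum_mem fun _ _ => mul_mem ((plO P).algebraMap_mem _)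
      (prod_mem fun _ _ => pow_mem (ha _) _)
  generalize aeval (fun j => a (i.succAbove j)) p = f at c fm ⊢
  generalize aeval (fun j => a (i.succAbove j)) (pderiv j p) = q at c u
  by_contra nu
  have t0 := P.unif_ne
  have gm : f / P.unif ∈ plO P := by
    by_cases f0 : f = 0
    · rw [f0, zero_div]; exact zero_mem _
    · have := (mx_plO f0).1 ⟨fm, nu⟩
      rw [mem_plO_ord, P.ord_div f0 t0, P.ord_unif]
      omega
  have e : q = P.unif * (dD b (Function.update a (i.succAbove j) (f / P.unif)) / dD b a) := by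
    have z : δ P.unif = 0 := ht ▸ d3 i (Fin.succAbove_ne i j).symm
    rw [← mul_div_cancel₀ f t0, Derivation.leibniz, z, smul_zero, add_zero, d1, smul_eq_mul] at c
    rw [← mul_div_assoc, c, mul_div_cancel_right₀ _ h0]
  have w := hm (Function.update a (i.succAbove j) (f / P.unif)) fun l => by
    rcases eq_or_ne l (i.succAbove j) with rfl | k
    · rwa [Function.update_self]
    · rw [Function.update_of_ne k]; exact ha l
  have v := mul_mem w u.inv_mem
  rw [e, mul_inv, mul_comm (P.unif⁻¹), ← mul_assoc,
    mul_inv_cancel₀ (right_ne_zero_of_mul (e ▸ u.ne)), one_mul, mem_plO_ord, P.ord_inv,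
    P.ord_unif] at v
  omega

end Pool.Agent.MP_20d318_ag.PR
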