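import Pool.Agent.MP_20d318_ag.PR.Spec

/-! Pairs: from the local rings to the scheme statement on the section of `-2 K`. -/

set_option autoImplicit false
set_option linter.unusedSectionVars false
set_option linter.style.haveILetI false

open AlgebraicGeometry CategoryTheory

namespace Pool.Agent.MP_20d318_ag.PR

open Pool.Agent.MP_fd6584_ag Pool.Agent.MP_fd6584_ag.Pj Pool.Agent.MP_fd6584_ag.Fn Pool.Agent.CBk
open Pool.Agent.MP_fd6584_ag.AG hiding deg_inv deg_congr deg_of_unit deg_mul deg_prod deg_zpow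
  deg_eq_zero deg_nonneg deg_div deg_pow
open Pool.Agent.MP_20d318_ag.AM Pool.Agent.MP_20d318_ag.AM.BirA

namespace Log

theorem sq {k K A : Type} [Field k] [Field K] [Algebra k K] [CommRing A] [IsLocalRing A]
    {O : Subalgebra k K} (e : A ≃+* O) {u : A} (hu : u ∈ IsLocalRing.maximalIdeal A ^ 2) :
    ¬ Crd O (e u : K) := by
  intro h
  have loc : IsLocalRing O := e.isLocalRing
  have m : ∀ v ∈ IsLocalRing.maximalIdeal A, (e v : K) ∈ mx O := fun v hv =>
    (mem_mx_iff _).2 fun q => hv (by simpa using q.map e.symm)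
  obtain ⟨D, h1, h2⟩ := h (m u (Ideal.pow_le_self two_ne_zero hu))
  refine h2.not_mx ?_
  clear h2 h
  rw [pow_two] at hu
  refine Submodule.mul_induction_on hu (fun a ha b hb => ?_) (fun a b ha hb => ?_)
  · rw [map_mul, Subalgebra.coe_mul, D.leibniz, smul_eq_mul, smul_eq_mul]
    exact mx_add loc (mx_mul_right (m a ha) (h1 _ (e b).2)) (mx_mul_right (m b hb) (h1 _ (e a).2))
  · rw [map_add, Subalgebra.coe_add, map_add]
    exact mx_add loc ha hb

theorem mem {k K J : Type} [Field k] [Field K] [Algebra k K] {𝒞 : Charts k K J} (N : Model 𝒞)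
    (x : N.X) : Sch.OA N x ∈ Sch.pts 𝒞 := by
  obtain ⟨j, p, h⟩ := N.cover x
  refine Set.mem_iUnion.2 ⟨j, (Sch.toOA N x).isLocalRing, fun _ hy => Model.B_le_O h hy,
    fun f hf => ?_⟩
  obtain ⟨a, b, hb, h1⟩ := (Model.mem_O h).1 hf
  have h2 := (Model.U_iff h b).2 hb
  exact ⟨a, a.2, b, b.2, h2, eq_div_of_mul_eq h2.1 h1⟩

end Log

theorem log_stmt : LogStmt := by
  intro k K J _ _ _ 𝒞 N ψ n b _ h
  letI : Algebra k N.X.functionField := (const N.s).toAlgebra
  let ε : N.X.functionField ≃ₐ[k] K := AlgEquiv.ofRingEquiv (f := N.e) N.e_const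
  obtain ⟨b', e⟩ := tr ε.symm b
  have key : ∀ (x : N.X) (a : Fin (n + 2) → N.X.presheaf.stalk x),
      N.e (N.e.symm ψ * dD b' (fun i => algebraMap _ _ (a i)) ^ 2) =
        ψ * dD b (fun i => N.ev x (a i)) ^ 2 := by
    intro x a
    have q := e fun i => N.ev x (a i)
    have r : (fun i => ε.symm (N.ev x (a i))) = fun i => algebraMap _ _ (a i) :=
      funext fun i => ε.symm_apply_eq.2 rfl
    rw [r] at q
    rw [map_mul, map_pow, q, N.e.apply_symm_apply]
    exact congrArg (fun z => ψ * z ^ 2) (ε.apply_symm_apply _)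
  refine ⟨n + 2, b', fun x => ?_⟩
  obtain ⟨a, ha, a0, a1, a2⟩ := h _ (Log.mem N x)
  refine ⟨fun a' => ?_, ?_⟩
  · have q : ψ * dD b (fun i => N.ev x (a' i)) ^ 2 ∈ Sch.OA N x := by
      have := mul_mem (pow_mem (a1 (fun i => N.ev x (a' i)) fun i => ⟨a' i, rfl⟩) 2) a2.mem
      convert this using 1
      field_simp
    obtain ⟨u, hu⟩ := q
    exact ⟨u, N.e.injective (hu.trans (key x a').symm)⟩
  · choose u hu using ha
    obtain rfl := funext hu
    refine ⟨u, fun v hv q => Log.sq (Sch.toOA N x) hv ?_⟩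
    have : ((Sch.toOA N x v : Sch.OA N x) : K) = ψ * dD b (fun i => N.ev x (u i)) ^ 2 :=
      (congrArg N.e q).trans (key x u)
    rw [this]
    exact a2.crd

end Pool.Agent.MP_20d318_ag.PR
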