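import Pool.Agent.MP_20d318_ag.PR.Spec

/-! Pairs: the local equations of the boundary from a volume form. -/

set_option autoImplicit false
set_option linter.unusedSectionVars false

open AlgebraicGeometry CategoryTheory

namespace Pool.Agent.MP_20d318_ag.PR

open Pool.Agent.MP_fd6584_ag Pool.Agent.MP_fd6584_ag.Pj Pool.Agent.MP_fd6584_ag.Fn Pool.Agent.CBk
open Pool.Agent.MP_fd6584_ag.AG hiding deg_inv deg_congr deg_of_unit deg_mul deg_prod deg_zpow
  deg_eq_zero deg_nonneg deg_div deg_pow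
open Pool.Agent.MP_20d318_ag.AM Pool.Agent.MP_20d318_ag.AM.BirA
open Pool.Agent.MVg (H1)
open Pool.Agent.MP_20d318_ag.CH (Vol)
open Pool.Agent.MP_20d318_ag.Lat (RP)

theorem Lpv.unit {k K : Type} [Field k] [Field K] [Algebra k K] {n : ℕ} {O : Subalgebra k K}
    {S v : K} (hO : IsLocalRing O) (h : Eq1 n O S) (hv : IsU O v) : Eq1 n O (v * S) := by
  have back : v * S ∈ mx O → S ∈ mx O := fun hm => ⟨h.mem, fun hu => hm.2 (hv.mul hu)⟩
  refine ⟨O.mul_mem hv.2.1 h.mem, fun hm => ?_, fun hm => h.tri (back hm)⟩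
  obtain ⟨D, hD, hu⟩ := h.crd (back hm)
  refine ⟨D, hD, ?_⟩
  rw [Derivation.leibniz, smul_eq_mul, smul_eq_mul]
  exact (hv.mul hu).add_mx hO (mx_mul_right (back hm) (hD v hv.2.1))

theorem lpv_stmt : LpvStmt := by
  intro k K _ _ _ X n y W ψ j hi hs hj h hX
  have hy : IsTranscendenceBasis k y := hi.isTranscendenceBasis_iff_isAlgebraic.2
    (IntermediateField.isAlgebraic_adjoin_iff_top.1 inferInstance)
  obtain ⟨b, hb⟩ := Pool.Agent.CBk.Canon.exists_basis hy hs
  let D : Derivation k K (Fin (n + 2) → K) := Derivation.mk' (LinearMap.pi fun i =>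
    (b.coord i).restrictScalars k ∘ₗ (KaehlerDifferential.D k K).toLinearMap)
    fun x y => by ext i; simp
  have hD : ∀ y i, D y i = b.repr (KaehlerDifferential.D k K y) i := fun y i => rfl
  let b' := b.unitsSMul (Pi.mulSingle 0 (Units.mk0 j hj)⁻¹)
  have hdet : ∀ a : Fin (n + 2) → K, dD b' a = j * CH.dt D a := fun a => by
    rw [dD, Module.Basis.det_unitsSMul, Finset.prod_pi_mulSingle' 0, if_pos (Finset.mem_univ _),
      inv_inv, AlternatingMap.smul_apply, smul_eq_mul, Module.Basis.det_apply,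
      ← Matrix.det_transpose, CH.dt]
    exact congrArg₂ (· * ·) rfl (congrArg Matrix.det (Matrix.ext fun j i => (hD _ i).symm))
  refine ⟨b', fun O hO => ?_⟩
  obtain ⟨c, ⟨h1, h2⟩, h3⟩ := h D (fun i => funext fun l => by
    rw [hD, ← hb, b.repr_self, Finsupp.single_apply, Pi.single_apply]
    simp [eq_comm]) O hO
  have hW : W O ≠ 0 := left_ne_zero_of_mul h3.1
  have hc : CH.dt D c ≠ 0 := right_ne_zero_of_mul h3.1
  refine ⟨c, h1, by rw [hdet]; exact mul_ne_zero hj hc, fun a ha => ?_, ?_⟩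
  · choose t ht hu using fun i => h2 _ (ha i)
    have h5 : CH.dt D a = (Matrix.of t).det * CH.dt D c := by
      rw [CH.dt, CH.dt, ← Matrix.det_mul]
      exact congrArg Matrix.det (Matrix.ext fun j i => by simp [Matrix.mul_apply, hu])
    have h6 : (Matrix.of t).det ∈ O := by
      rw [Matrix.det_apply']
      exact sum_mem fun σ _ => mul_mem (intCast_mem _ _) (prod_mem fun i _ => ht _ _)
    have h7 : dD b' a / dD b' c = (Matrix.of t).det := by
      rw [hdet, hdet, h5]
      field_simp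
    rw [h7]
    exact h6
  · have h8 : ψ * dD b' c ^ 2 = (W O * CH.dt D c) ^ 2 * (ψ * (j / W O) ^ 2) := by
      rw [hdet]
      field_simp
    rw [h8]
    exact Lpv.unit (hX O hO).1 (hX O hO).2 (h3.pow 2)

end Pool.Agent.MP_20d318_ag.PR
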