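import Pool.Agent.MP_20d318_ag.PR.Spec

/-! Pairs: a divisor with non-positive discrepancy lies on the model. -/

set_option autoImplicit false
set_option linter.unusedSectionVars false

open AlgebraicGeometry CategoryTheory

namespace Pool.Agent.MP_20d318_ag.PR

open Pool.Agent.MP_fd6584_ag Pool.Agent.MP_fd6584_ag.Pj Pool.Agent.MP_fd6584_ag.Fn Pool.Agent.CBk
open Pool.Agent.MP_fd6584_ag.AG hiding deg_inv deg_congr deg_of_unit deg_mul deg_prod deg_zpow
  deg_eq_zero deg_nonneg deg_div deg_pow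
open Pool.Agent.MP_20d318_ag.AM Pool.Agent.MP_20d318_ag.AM.BirA
open Pool.Agent.MVg (H1)

namespace TerA

variable {k K : Type} [Field k] [Field K] [Algebra k K] {n : ℕ}

theorem sq_mem {P : Place k K} {y S : K} (hS : S ≠ 0) (h1 : P.ord S ≤ 1)
    (h : y ^ 2 * S ∈ plO P) : y ∈ plO P := by
  rcases eq_or_ne y 0 with rfl | hy
  · exact zero_mem _
  rw [mem_plO_ord, P.ord_mul (pow_ne_zero _ hy) hS, P.ord_pow] at h
  rw [mem_plO_ord]
  omega

theorem upd {O : Subalgebra k K} {a : Fin n → K} (ha : ∀ j, a j ∈ O) (i : Fin n) {x : K}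
    (hx : x ∈ O) (j : Fin n) : Function.update a i x j ∈ O := by
  rcases eq_or_ne j i with rfl | h
  · rwa [Function.update_self]
  · rw [Function.update_of_ne h]
    exact ha j

theorem lin (b : Module.Basis (Fin n) K Ω[K⁄k]) (a : Fin n → K) (i : Fin n) :
    ∃ L : Derivation k K K, ∀ x, dD b (Function.update a i x) = L x :=
  ⟨(b.det.toMultilinearMap.toLinearMap (fun j => KaehlerDifferential.D k K (a j)) i).compDer
    (KaehlerDifferential.D k K), fun x =>
      congrArg b.det (Function.comp_update (KaehlerDifferential.D k K) a i x)⟩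

theorem min_le [IsAlgClosed k] {P : Place k K} {G : Set K} (hG : G.Finite)
    (hP : plO P ∈ Pts (Algebra.adjoin k G)) (hf : Frac (plO P)) {O : Subalgebra k K} (hn : Nrm O)
    (hd : Dom O (plO P)) (b : Module.Basis (Fin (n + 2)) K Ω[K⁄k]) {a : Fin (n + 2) → K}
    (ha : ∀ i, a i ∈ O) (h0 : dD b a ≠ 0)
    (h : ∀ a' : Fin (n + 2) → K, (∀ i, a' i ∈ plO P) → dD b a' / dD b a ∈ plO P) : plO P ≤ O := by
  have e : ∀ a', dD (b.unitsSMul (Pi.mulSingle 0 (Units.mk0 (dD b a) h0))) a' =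
      dD b a' / dD b a := fun a' => by
    rw [dD, Module.Basis.det_unitsSMul, Finset.prod_pi_mulSingle' 0, if_pos (Finset.mem_univ _),
      AlternatingMap.smul_apply, smul_eq_mul, Units.val_inv_eq_inv_val, Units.val_mk0,
      div_eq_inv_mul]
    rfl
  refine BirA.le_of hG hP hn hd (fs_pl hG hP) hf
    (b := b.unitsSMul (Pi.mulSingle 0 (Units.mk0 (dD b a) h0))) (fun a' h' => ?_) ha ?_
  · rw [e]
    exact h a' h'
  · rw [e, div_self h0]
    exact isU_one

theorem unit_ex {O : Subalgebra k K} (hO : IsLocalRing O) (b : Module.Basis (Fin n) K Ω[K⁄k])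
    {a : Fin n → K} (ha : ∀ i, a i ∈ O) (h0 : dD b a ≠ 0)
    (h : ∀ a' : Fin n → K, (∀ i, a' i ∈ O) → dD b a' / dD b a ∈ O) {S : K} (hS : S ∈ O)
    (D0 : Derivation k K K) (h1 : ∀ f ∈ O, D0 f ∈ O) (h2 : IsU O (D0 S)) :
    ∃ i, IsU O (dD b (Function.update a i S) / dD b a) := by
  by_contra hc
  have e := congrArg D0.liftKaehlerDifferential (cramer b h0 S)
  simp only [map_sum, map_smul, Derivation.liftKaehlerDifferential_comp_D, smul_eq_mul] at e
  refine h2.not_mx (e ▸ mx_sum hO fun i _ => mx_mul_right ?_ (h1 _ (ha i)))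
  exact (isU_or_mx (h _ (upd ha i hS))).resolve_left fun hu => hc ⟨i, hu⟩

theorem key {P : Place k K} {ψ S r d : K} (L : Derivation k K K) (hS0 : S ≠ 0)
    (hN : 2 ≤ P.ord S) (hS : S = ψ * d ^ 2) (hr : IsU (plO P) r) (e : L S = r * d)
    (h : ∀ x ∈ plO P, ψ * L x ^ 2 ∈ plO P) : IsU (plO P) (ψ * L P.unif ^ 2) := by
  obtain ⟨m, hm⟩ : ∃ m : ℕ, P.ord S = (m + 1 : ℕ) := ⟨(P.ord S - 1).toNat, by omega⟩
  have t0 := P.unif_ne
  have tm : P.unif ∈ mx (plO P) := (mx_plO t0).2 (by simp)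
  obtain ⟨v, hv, rfl⟩ : ∃ v, v ∈ plO P ∧ S = P.unif ^ (m + 1) * v :=
    ⟨S / P.unif ^ (m + 1), by
      rw [mem_plO_ord, P.ord_div hS0 (pow_ne_zero _ t0), P.ord_pow, P.ord_unif, hm]
      simp, by field_simp⟩
  have ha := h _ tm.1
  have hb := h _ hv
  have hab : ψ * L P.unif * L v ∈ plO P := sq_mem one_ne_zero (by simp) (by
    convert mul_mem ha hb using 1
    ring)
  have hc : ((m + 1 : ℕ) : K) * v ∈ plO P := mul_mem (natCast_mem _ _) hv
  have hz : P.unif * (2 * (((m + 1 : ℕ) : K) * v) * (ψ * L P.unif * L v) +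
      P.unif * (ψ * L v ^ 2)) ∈ mx (plO P) :=
    mx_mul_right tm (add_mem (mul_mem (mul_mem (ofNat_mem _ _) hc) hab) (mul_mem tm.1 hb))
  have hy := mul_mem (pow_mem hc 2) ha
  obtain ⟨w, hw⟩ : ∃ w, w = (((m + 1 : ℕ) : K) * v) ^ 2 * (ψ * L P.unif ^ 2) +
    P.unif * (2 * (((m + 1 : ℕ) : K) * v) * (ψ * L P.unif * L v) + P.unif * (ψ * L v ^ 2)) :=
    ⟨_, rfl⟩
  have w1 : w ∈ plO P := hw ▸ add_mem hy hz.1
  have e2 : r ^ 2 * (P.unif ^ (m + 1) * v) = P.unif ^ (2 * m) * w := by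
    rw [Derivation.leibniz, Derivation.leibniz_pow] at e
    simp only [smul_eq_mul, nsmul_eq_mul, Nat.add_sub_cancel] at e
    rw [hS, hw]
    linear_combination (-ψ * (r * d + P.unif ^ (m + 1) * L v +
      v * (((m + 1 : ℕ) : K) * (P.unif ^ m * L P.unif)))) * e
  have w0 : w ≠ 0 := fun h0 => by
    rw [h0, mul_zero] at e2
    exact mul_ne_zero (pow_ne_zero _ hr.ne) hS0 e2
  have e3 := congrArg P.ord e2
  rw [P.ord_mul (pow_ne_zero _ hr.ne) hS0, P.ord_mul (pow_ne_zero _ t0) w0, P.ord_pow, P.ord_pow,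
    ((isU_plO' P).1 hr).2, P.ord_unif, hm] at e3
  have w2 := mem_plO_ord.1 w1
  have wu : IsU (plO P) w := (isU_plO' P).2 ⟨w0, by omega⟩
  refine isU_of_not_mx ha fun hx => wu.not_mx (hw ▸ mx_add (plO_isVal P).isLocalRing ?_ hz)
  exact mx_mul_left (pow_mem hc 2) hx

end TerA

open TerA in
theorem ter_stmt : TerStmt := by
  intro hI k K _ _ _ _ _ X ψ n b P G hX hψ hL hG hP hf h
  obtain ⟨O, hO, hd⟩ := hX.cpl _ (plO_isVal P)
  obtain ⟨a, ha, h0, hm, hE⟩ := hL O hO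
  suffices hle : plO P ≤ O from le_antisymm hd.1 hle ▸ hO
  have hS0 : ψ * dD b a ^ 2 ≠ 0 := mul_ne_zero hψ (pow_ne_zero _ h0)
  rcases le_or_gt (P.ord (ψ * dD b a ^ 2)) 1 with hN | hN
  · refine min_le hG hP hf (hX.nrm O hO) hd b ha h0 fun a' h' => sq_mem hS0 hN ?_
    convert h a' h' using 1
    field_simp
  have hS : ψ * dD b a ^ 2 ∈ mx O := mx_of_le hd.1 hE.mem ((mx_plO hS0).2 (by omega))
  obtain ⟨D0, h1, h2⟩ := hE.crd hS
  obtain ⟨i, hi⟩ := unit_ex (hX.loc O hO) b ha h0 hm hE.mem D0 h1 h2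
  obtain ⟨L, e⟩ := lin b a i
  have hV : ∀ j, a j ∈ plO P := fun j => hd.1 (ha j)
  have hu := key L hS0 (by omega) rfl (hi.mono hd.1) (by rw [← e, div_mul_cancel₀ _ h0])
    fun x hx => e x ▸ h _ (upd hV i hx)
  rw [← e] at hu
  have t0 : dD b (Function.update a i P.unif) ≠ 0 := fun hz => hu.ne (by simp [hz])
  have tm : P.unif ∈ plO P := mem_plO_ord.2 (by simp)
  have hi' := hI k K n b P _ i (upd hV i tm) (Function.update_self ..) t0 fun a' h' =>
    sq_mem hu.ne (by rw [((isU_plO' P).1 hu).2]; exact zero_le_one) (by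
      convert h a' h' using 1
      field_simp)
  simp only [Function.update_of_ne (Fin.succAbove_ne i _)] at hi'
  have hO' : Ind O fun j => a (i.succAbove j) := ⟨fun j => ha _, fun p hp => by
    refine hd.2 _ ?_ (hi'.2 p hp)
    refine Algebra.adjoin_le (s := Set.range fun j => a (i.succAbove j))
      (Set.range_subset_iff.2 fun j => ha _) ?_
    rw [Algebra.adjoin_range_eq_range_aeval]
    exact ⟨p, rfl⟩⟩
  rcases hE.tri hS (fun hn => hn ⟨_, hO'⟩) with rfl | ⟨Q, rfl⟩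
  · exact le_top
  · exact ((plO_isVal Q).eq_of_dom hd).ge

end Pool.Agent.MP_20d318_ag.PR
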