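import Pool.Agent.MP_20d318_ag.PR.Asm
import Pool.Agent.MP_20d318_ag.PR.Brg
import Pool.Agent.MP_20d318_ag.PR.Lpv
import Pool.Agent.MP_20d318_ag.PR.Log
import Pool.Agent.MP_20d318_ag.PR.Ind
import Pool.Agent.MP_20d318_ag.PR.Ter
import Pool.Agent.MP_20d318_ag.PR.Crp
import Pool.Agent.MP_20d318_ag.PR.Aps

/-! Pairs: all the rows hold. -/

set_option autoImplicit false

namespace Pool.Agent.MP_20d318_ag.PR

theorem pm : PM := ⟨brg_stmt, lpv_stmt, log_stmt, ind_stmt, ter_stmt, crp_stmt, aps_stmt⟩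

end Pool.Agent.MP_20d318_ag.PR
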