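import Pool.Agent.MP_20d318_ag.PR.Spec

/-! The cone theorem for the automorphisms that preserve the boundary. -/

set_option autoImplicit false
set_option linter.unusedSectionVars false

namespace Pool.Agent.MP_20d318_ag.PR

open Pool.Agent.MP_fd6584_ag Pool.Agent.MP_fd6584_ag.Fn Pool.Agent.CBk
open Pool.Agent.MP_fd6584_ag.AG hiding deg_inv deg_congr deg_of_unit deg_mul deg_prod deg_zpow
  deg_eq_zero deg_nonneg deg_div deg_pow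
open Pool.Agent.MP_20d318_ag.AM
open Pool.Agent.MVg (H1)
open Pool.Agent.MP_20d318_ag.CH (cl cl_val cl_mem cl_eff n1_ext n1_eq)
open Pool.Agent.MP_20d318_ag.Lat (cone IsCone RP isCone_cone subset_cone Concl)

variable {k K : Type} [Field k] [Field K] [Algebra k K] {X Z : Set (Subalgebra k K)} {ψ : K}

theorem Sq.mul {σ τ : K ≃ₐ[k] K} (h : Sq ψ σ) (h' : Sq ψ τ) : Sq ψ (σ * τ) := by
  obtain ⟨r, r0, e⟩ := h
  obtain ⟨s, s0, e'⟩ := h'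
  refine ⟨r * σ s, mul_ne_zero r0 ((map_ne_zero σ).2 s0), ?_⟩
  rw [AlgEquiv.mul_apply, e', map_mul, map_pow, e]
  ring

theorem Sq.inv {σ : K ≃ₐ[k] K} (h : Sq ψ σ) : Sq ψ σ⁻¹ := by
  obtain ⟨r, r0, e⟩ := h
  have r1 : σ.symm r ≠ 0 := (map_ne_zero σ.symm).2 r0
  refine ⟨(σ.symm r)⁻¹, inv_ne_zero r1, ?_⟩
  have := congrArg σ.symm e
  rw [σ.symm_apply_apply, map_mul, map_pow] at this
  change σ.symm ψ = _
  rw [inv_pow, eq_mul_inv_iff_mul_eq₀ (pow_ne_zero 2 r1)]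
  exact this.symm

theorem isU_cm {O : Subalgebra k K} (σ : K ≃ₐ[k] K) {u : K} :
    IsU (O.comap (σ : K →ₐ[k] K)) u ↔ IsU O (σ u) :=
  and_congr (map_ne_zero σ).symm (and_congr Iff.rfl (by rw [← map_inv₀]; rfl))

theorem Sq.kp {g : AG.Aut Z} (h : Sq ψ g.1) : Kp Z ψ g := by
  obtain ⟨r, r0, e⟩ := h
  refine fun O _ _ => ⟨fun ⟨f, hf⟩ => ⟨r * g.1 f, ?_⟩, fun ⟨f, hf⟩ => ⟨g.1.symm (f / r), ?_⟩⟩
  · rw [isU_cm, map_mul, map_pow, e] at hf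
    rwa [mul_pow, ← mul_assoc]
  · rw [isU_cm, map_mul, map_pow, e, g.1.apply_symm_apply, mul_assoc, ← mul_pow,
      mul_div_cancel₀ _ r0]
    exact hf

variable (Z ψ) in
/-- The image of the automorphisms of the pair. -/
def autK : Subgroup (AG.N1 Z ≃ₗ[ℝ] AG.N1 Z) where
  carrier := {γ | ∃ g, Kp Z ψ g ∧ g.eqv = γ}
  one_mem' := ⟨AG.Aut.one, fun _ _ _ => Iff.rfl, rfl⟩
  mul_mem' := by
    rintro _ _ ⟨g, a, rfl⟩ ⟨h, b, rfl⟩
    exact ⟨g.mul h, fun O hO c => (b _ ((g.2 O).1 hO) (c.comap g.1)).trans (a O hO c), rfl⟩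
  inv_mem' := by
    rintro _ ⟨g, a, rfl⟩
    refine ⟨g.inv, fun O hO c => ?_, LinearEquiv.ext fun _ => rfl⟩
    have := a _ ((g.inv.2 O).1 hO) (c.comap g.inv.1)
    rw [show (O.comap (g.inv.1 : K →ₐ[k] K)).comap (g.1 : K →ₐ[k] K) = O from
      Subalgebra.ext fun z => iff_of_eq (congrArg (· ∈ O) (g.1.symm_apply_apply z))] at this
    exact this.symm

theorem autK_le {γ : AG.N1 Z ≃ₗ[ℝ] AG.N1 Z} (h : γ ∈ autK Z ψ) : γ ∈ autG Z :=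
  let ⟨g, _, e⟩ := h; ⟨g, e⟩

open Glue Pool.Agent.MP_20d318_ag.Lat in
theorem concl [hfd : FiniteDimensional ℝ (AG.N1 X)]
    (h : Concl (AddSubgroup.closure (Set.range Cartier.n1)) (Glue.NEf X) (autK X ψ)) :
    ConeP X ψ := by
  obtain ⟨R, hRL, hRC, hcov, hdis⟩ := h
  have hne : NefEff X = (N1 X).subtype '' NEf X := by
    have e : {η | ∃ D : Cartier X, D.Effective ∧ D.cls = η} =
        (N1 X).subtype '' (Cartier.n1 '' {D | D.Effective}) := by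
      rw [Set.image_image]; rfl
    ext ξ
    constructor
    · rintro ⟨h1, h2⟩
      rw [e] at h2
      obtain ⟨η, h3, rfl⟩ := (cone_image _ _).subset h2
      exact ⟨η, ⟨by rintro _ ⟨ν, rfl⟩; exact h1 ν, h3⟩, rfl⟩
    · rintro ⟨η, ⟨h1, h2⟩, rfl⟩
      refine ⟨fun ν => h1 _ ⟨ν, rfl⟩, ?_⟩
      rw [e]
      exact (cone_image _ _).superset ⟨η, h2, rfl⟩
  refine ⟨hfd, R, _, fun r hr => ?_, rfl,
    fun ξ hξ => hne ▸ ⟨ξ, hRC hξ, rfl⟩, fun ξ => ⟨fun hξ => ?_, ?_⟩, ?_⟩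
  · have := hRL hr
    clear hr
    induction this using AddSubgroup.closure_induction with
    | mem x hx => obtain ⟨D, rfl⟩ := hx; exact Submodule.subset_span ⟨D, rfl⟩
    | zero => exact zero_mem _
    | add x y _ _ hx hy => exact add_mem hx hy
    | neg x _ hx => exact neg_mem hx
  · rw [hne] at hξ
    obtain ⟨η, hη, rfl⟩ := hξ
    obtain ⟨_, ⟨g, kp, rfl⟩, y, hy, rfl⟩ := hcov η hη
    exact ⟨g, kp, y, hy, rfl⟩
  · rintro ⟨g, -, η, hη, rfl⟩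
    rw [hne]
    exact ⟨g.eqv η, gC _ ⟨g, rfl⟩ η (hRC hη), rfl⟩
  · rintro g kp ⟨ζ, hζ, hg⟩ ξ hξ η hη e
    refine hdis g.eqv ⟨g, kp, rfl⟩ (fun h1 => hg ?_) η (interior_subset_core _ hη) ?_
    · exact congrArg Subtype.val (LinearEquiv.congr_fun h1 ⟨ζ, hζ⟩)
    · rw [show g.eqv η = ξ from Subtype.ext e.symm]
      exact interior_subset_core _ hξ

variable [IsAlgClosed k]

open ChmA in
theorem chm (r : Ref X) (md : Md X Z) {S : Set (AG.N1 X)} (sg : Sig X S)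
    (cov : ∀ x ∈ Glue.Ef X, ∃ g : AG.Aut X, Sq ψ g.1 ∧ g.n1 x ∈ S) {a : AG.N1 X} (ha : Lc X Z a) :
    ∃ Q, RP (LL X) Q ∧ Q ⊆ SA X Z ∧ ∀ x ∈ SA X Z, ∀ ε : ℝ, 0 < ε →
      ∃ (g : AG.Aut X) (g' : AG.Aut Z), g.1 = g'.1 ∧ Sq ψ g.1 ∧ g.n1 (x + ε • a) ∈ Q := by
  obtain ⟨𝒯, fin, rp, _, hZ⟩ := sg
  have t := fun g => trn_stmt k K X r g Z
  let gd : AG.Aut X → Prop := fun g => Sq ψ g.1 ∧ ∃ x ∈ SA X Z, ∃ ε : ℝ, 0 < ε ∧ g.n1 (x + ε • a) ∈ S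
  let 𝒰 : Set (Set (AG.N1 X)) := {T | ∃ g, gd g ∧ SA X (Tr Z g) ∩ S = T}
  have hU : 𝒰 ⊆ 𝒯 := by
    rintro _ ⟨g, -, rfl⟩
    exact hZ _ ((t g).1 md)
  have : Finite 𝒰 := fin.subset hU
  choose γ h1 h2 using fun T : 𝒰 => T.2
  choose R h3 h4 using fun T : 𝒰 => rp T (hU T.2)
  have hin : ∀ g x, x ∈ SA X Z → ∀ ε : ℝ, 0 < ε → g.n1 (x + ε • a) ∈ SA X (Tr Z g) :=
    fun g x hx ε hε => ((t g).2.1 _).2 (isCone_SA.add _ hx _ (isCone_SA.smul _ hε.le _ ha.mem))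
  have hlc : ∀ (T : 𝒰) g, gd g → SA X (Tr Z g) ∩ S = T → Lc X (Tr Z g) (∑ q ∈ R T, q) := by
    rintro T g ⟨-, x, hx, ε, hε, hS⟩ e
    have e' := (h4 T).trans e.symm
    refine key r (h3 T) (fun q hq => (e'.subset (subset_cone _ hq)).1) (((t g).2.1 x).2 hx)
      ((t g).2.2 a ha) hε ?_
    rw [← map_smul, ← map_add]
    exact e'.symm.subset ⟨hin g x hx ε hε, hS⟩
  refine ⟨cone (⋃ T : 𝒰, (γ T).inv.n1 '' (R T : Set (AG.N1 X))),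
    rp_fin (Set.finite_iUnion fun T => (R T).finite_toSet.image _) ?_,
    isCone_SA.cone_subset ?_, fun x hx ε hε => ?_⟩
  · refine Set.iUnion_subset fun T => ?_
    rintro _ ⟨q, hq, rfl⟩
    exact n1_LL _ (h3 T hq)
  · refine Set.iUnion_subset fun T => ?_
    rintro _ ⟨q, hq, rfl⟩
    refine ((t (γ T)).2.1 _).1 ?_
    rw [n1_inv]
    exact (((h4 T).trans (h2 T).symm).subset (subset_cone _ hq)).1
  · obtain ⟨g, sq, hg⟩ := cov _ (SA_ef md.good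
      (isCone_SA.add _ hx _ (isCone_SA.smul _ hε.le _ ha.mem)))
    have hgd : gd g := ⟨sq, x, hx, ε, hε, hg⟩
    let T : 𝒰 := ⟨_, g, hgd, rfl⟩
    have e := det_stmt k K X r _ _ ((t g).1 md) ((t (γ T)).1 md) _ (hlc T g hgd rfl)
      (hlc T _ (h1 T) (h2 T))
    refine ⟨(γ T).inv.mul g, ⟨_, pres e⟩, rfl, (h1 T).1.inv.mul sq, ?_⟩
    rw [n1_mul]
    exact ((isCone_cone _).preimage (γ T).inv.n1).cone_subset (R := R T)
      (fun q hq => subset_cone _ (Set.mem_iUnion.2 ⟨T, Set.mem_image_of_mem _ hq⟩))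
      ((h4 T).symm.subset ⟨hin g x hx ε hε, hg⟩)

open CT in
theorem mod_stmt : ModStmt := by
  intro k K _ _ _ _ X Z ψ r fs ce s
  obtain ⟨Ψ, p⟩ := psi r s
  obtain ⟨a, ha⟩ := hyp r s
  have sig := fun S a b => sig_stmt int_stmt k K X r S a (fs S a b)
  have hX : Good X := r.nice.toGood
  have hZ : Good Z := s.nice.toGood
  have d := dg r s p
  have := r.fd
  have : FiniteDimensional ℝ (AG.N1 Z) :=
    Module.Finite.of_surjective Ψ fun y => (p.surj y).imp fun _ h => h.2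
  have ae : a ∈ Glue.Ef X := SA_ef hZ ha.mem
  have sn : ∀ x ∈ SA X Z, Ψ x ∈ Glue.NEf Z := fun x h => ⟨by
    rintro _ ⟨ν, rfl⟩
    exact d.nn ν x (h _ ν.gen_mem), p.ef x (SA_ef hZ h)⟩
  obtain ⟨S₀, s1, s2, s3⟩ := ce
  obtain ⟨Q₀, q1, q2, q3⟩ := chm r s.md (sig S₀ s1 s2) s3 ha
  refine concl (loo_stmt ray_stmt (AG.N1 Z) (LL Z) (Glue.NEf Z) (autK Z ψ)
    (Set.range Curve.lin) ((Lat.isCone_dual _).inter (isCone_cone _)) Glue.cvint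
    (fun c hc x hx => hx.1 c hc) (fun x hx => n1_ext fun ν => by
      rw [map_zero]
      exact hx _ ⟨ν, rfl⟩) (fun g h => Glue.gL g (autK_le h)) (fun g h => Glue.gC g (autK_le h))
    (eq_top_iff.2 fun w _ => ?_) (Ψ '' Q₀)
    (rp_img r s p q1) (Set.image_subset_iff.2 fun x hx => sn x (q2 hx)) fun y hy => ?_)
  · obtain ⟨v, w, rfl⟩ := p.surj w
    obtain ⟨O, hO, -⟩ := hZ.cpl ⊤ fun _ => Or.inl trivial
    obtain ⟨N, -, n2⟩ := amp r ha hO w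
    obtain ⟨S, t1, t2, t3, t4⟩ := EndA.exists_rp (SO_ef n2) ha.1 ae
    obtain ⟨δ, d1, -, d2⟩ := opn r s p (rp_cone t1) (sig S t1 t2) ⟨ha.mem, t4⟩ (d.pos a ha)
      (add_mem (Submodule.smul_mem _ N (lc_W r ha hZ)) w) ((rp_cone t1).add _ t4 _ t3)
    have b1 := Submodule.subset_span (R := ℝ) (sn _ ha.mem)
    have b2 := Submodule.subset_span (R := ℝ) (sn _ d2)
    have e : Ψ v = δ⁻¹ • (Ψ (a + δ • (N • a + v)) - Ψ a) - N • Ψ a := by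
      rw [map_add, add_sub_cancel_left, map_smul, inv_smul_smul₀ d1.ne', map_add, map_smul,
        add_sub_cancel_left]
    rw [e]
    exact sub_mem (Submodule.smul_mem _ _ (sub_mem b2 b1)) (Submodule.smul_mem _ _ b1)
  · obtain ⟨x, x1, rfl⟩ := p.ef' y hy.2
    have x2 := nef r s p sig ha x1 fun ν => hy.1 _ ⟨ν, rfl⟩
    obtain ⟨S, t1, t2, t3, t4⟩ := EndA.exists_rp x1.1 ha.1 ae
    obtain ⟨𝒯, -, u1, -, u2⟩ := sig S t1 t2
    refine ⟨Ψ a, Ψ '' (SA X Z ∩ S), rp_img r s p (u1 _ (u2 Z s.md)),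
      Set.image_subset_iff.2 fun z hz => sn z hz.1, ⟨x, ⟨x2, t3⟩, rfl⟩,
      ⟨a, ⟨ha.mem, t4⟩, rfl⟩, fun ε hε => ?_⟩
    obtain ⟨g, g', e1, sq, e2⟩ := q3 x x2 ε hε
    refine ⟨g'.eqv, ⟨g', (e1 ▸ sq : Sq ψ g'.1).kp, rfl⟩, _, e2, ?_⟩
    rw [p.aut g g' e1, map_add, map_smul]
    rfl

end Pool.Agent.MP_20d318_ag.PR
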