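import Pool.Agent.MP_20d318_ag.AM.Stmt

/-! Pairs whose boundary is half the branch divisor of a square root. -/

set_option autoImplicit false

open AlgebraicGeometry CategoryTheory

namespace Pool.Agent.MP_20d318_ag.PR

open Pool.Agent.MP_fd6584_ag Pool.Agent.MP_fd6584_ag.Pj Pool.Agent.MP_20d318_ag.CC

variable {k M : Type} [Field k] [Field M] [Algebra k M] {X : Scheme.{0}} [IsIntegral X]

/-- `ψ` is a unit times a square at `x`. The boundary `Δ` attached to `ψ` is half the sum of the
prime divisors at whose generic points this fails. -/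
def Ev (x : X) (ψ : X.functionField) : Prop := ∃ f, UnitAt x (ψ * f ^ 2)

variable (s : X ⟶ Spec (CommRingCat.of k))

/-- For some rational top form `η`, given by a basis `b` of the rational differentials, `ψ / η ^ 2`
is a section of `-2 K` whose local equation is nowhere in the square of the maximal ideal. -/
def LogCY (ψ : X.functionField) : Prop :=
  letI : Algebra k X.functionField := (const s).toAlgebra
  ∃ (n : ℕ) (b : Module.Basis (Fin n) X.functionField Ω[X.functionField⁄k]), ∀ x : X,
    (∀ a : Fin n → X.presheaf.stalk x, RegAt x (ψ *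
      (b.det fun i => KaehlerDifferential.D k X.functionField (algebraMap _ _ (a i))) ^ 2)) ∧
    ∃ a : Fin n → X.presheaf.stalk x,
      ∀ u ∈ IsLocalRing.maximalIdeal (X.presheaf.stalk x) ^ 2, algebraMap _ _ u ≠ ψ *
        (b.det fun i => KaehlerDifferential.D k X.functionField (algebraMap _ _ (a i))) ^ 2

/-- For some `j > 0` the divisor `-2 j (K + Δ)` is linearly equivalent to an effective divisor: some
nonzero `c / η ^ (2 j)` is regular at all points of codimension at most one and vanishes to order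
`j` along the components of `Δ`. -/
def AntiPair (ψ : X.functionField) : Prop :=
  letI : Algebra k X.functionField := (const s).toAlgebra
  ∃ (n j : ℕ) (b : Module.Basis (Fin n) X.functionField Ω[X.functionField⁄k]) (c : X.functionField),
    0 < j ∧ c ≠ 0 ∧ ∀ x : X, Codim1 x → ∀ a : Fin n → X.presheaf.stalk x,
      ∃ u : X.presheaf.stalk x, algebraMap _ _ u = c *
        (b.det fun i => KaehlerDifferential.D k X.functionField (algebraMap _ _ (a i))) ^ (2 * j) ∧
        (Ev x ψ ∨ u ∈ IsLocalRing.maximalIdeal (X.presheaf.stalk x) ^ j)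

/-- The automorphism `g` preserves `Δ`. -/
def Keeps (ψ : X.functionField) (g : X ⟶ X) : Prop :=
  ∀ x : X, Codim1 x → (Ev (g.base.hom.toFun x) ψ ↔ Ev x ψ)

/-- The nef cone conjecture for the pair `(X, Δ)`. -/
def NefPair (ψ : X.functionField) : Prop :=
  FiniteDimensional ℝ (N1 s) ∧ ∃ (R : Finset (Curve s → ℝ)) (P : Set (Curve s → ℝ)),
    (∀ r ∈ R, r ∈ Submodule.span ℚ (Set.range (deg s))) ∧
    P = PointedCone.hull ℝ (R : Set (Curve s → ℝ)) ∧ P ⊆ effNef s ∧
    effNef s = ⋃ g ∈ {g : Aut (Over.mk s) | Keeps ψ g.hom.left}, push g '' P ∧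
    ∀ g : Aut (Over.mk s), Keeps ψ g.hom.left → (∃ ξ ∈ N1 s, push g ξ ≠ ξ) →
      int s P ∩ push g '' int s P = ∅

/-- The function field of `X` is generated by `a` copies `ι i M` of `M`, by `ζ 0, …, ζ (m - 1)` and
by `w`; there are `x i, y i` in `M` such that all `ι i (x i)`, `ι i (y i)`, `ζ r` are algebraically
independent; `w ^ d = ψ = ∏ ι i (φ i) · ∏ ζ r (ζ r - 1) (ζ r - l r)`; and the rational maps from `X`
to the surfaces with local rings `T i` and to the lines with coordinates `ζ r` are morphisms. -/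
def Cover (d : ℕ) {a : ℕ} (T : Fin a → Set (Subalgebra k M)) (φ : Fin a → M) {m : ℕ}
    (l : Fin m → k) (ψ : X.functionField) : Prop :=
  letI : Algebra k X.functionField := (const s).toAlgebra
  ∃ (ι : Fin a → M →ₐ[k] X.functionField) (ζ : Fin m → X.functionField) (w : X.functionField)
    (x y : Fin a → M),
    AlgebraicIndependent k (Sum.elim (Sum.elim (fun i => ι i (x i)) fun i => ι i (y i)) ζ) ∧
    w ^ d = ψ ∧ ψ = (∏ i, ι i (φ i)) * ∏ r, ζ r * (ζ r - 1) * (ζ r - const s (l r)) ∧
    IntermediateField.adjoin k ((⋃ i, Set.range (ι i)) ∪ (Set.range ζ ∪ {w})) = ⊤ ∧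
    ∀ p : X, (∀ i, ∃ O ∈ T i, ∀ f ∈ O, RegAt p (ι i f)) ∧ ∀ r, RegAt p (ζ r) ∨ RegAt p (ζ r)⁻¹

end Pool.Agent.MP_20d318_ag.PR
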