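import Pool.Agent.MP_20d318_ag.AC.Main
import Pool.Agent.MP_20d318_ag.PR.Stmt

/-! Pairs: the statements of the steps. -/

set_option autoImplicit false
set_option linter.unusedSectionVars false

open AlgebraicGeometry CategoryTheory

namespace Pool.Agent.MP_20d318_ag.PR

open Pool.Agent.MP_fd6584_ag Pool.Agent.MP_fd6584_ag.Pj Pool.Agent.MP_fd6584_ag.Fn Pool.Agent.CBk
open Pool.Agent.MP_fd6584_ag.AG hiding deg_inv deg_congr deg_of_unit deg_mul deg_prod deg_zpow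
  deg_eq_zero deg_nonneg deg_div deg_pow
open Pool.Agent.MP_20d318_ag.AM Pool.Agent.MP_20d318_ag.AM.BirA
open Pool.Agent.MVg (H1)
open Pool.Agent.MP_20d318_ag.CH (Vol)
open Pool.Agent.MP_20d318_ag.Lat (RP)

section defs

variable {k K : Type} [Field k] [Field K] [Algebra k K]

/-- `σ` fixes the class of `ψ` modulo squares. -/
def Sq (ψ : K) (σ : K ≃ₐ[k] K) : Prop := ∃ r : K, r ≠ 0 ∧ σ ψ = ψ * r ^ 2

/-- `ψ` is a unit of `O` times a square. -/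
def EvO (O : Subalgebra k K) (ψ : K) : Prop := ∃ f, IsU O (ψ * f ^ 2)

variable (X : Set (Subalgebra k K)) (ψ : K)

/-- The automorphism preserves the boundary. -/
def Kp (g : AG.Aut X) : Prop :=
  ∀ O ∈ X, H1 O → (EvO (O.comap (g.1 : K →ₐ[k] K)) ψ ↔ EvO O ψ)

/-- A rational polyhedral cone meets all orbits of effective classes. -/
def CEp : Prop := ∃ S, RP (LL X) S ∧ S ⊆ Glue.Ef X ∧
  ∀ x ∈ Glue.Ef X, ∃ g : AG.Aut X, Sq ψ g.1 ∧ g.n1 x ∈ S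

/-- The cone statement for the pair. -/
def ConeP : Prop :=
  FiniteDimensional ℝ (AG.N1 X) ∧ ∃ (R : Finset (AG.N1 X)) (C : Set (AG.N1 X)),
    (∀ r ∈ R, r.1 ∈ Submodule.span ℚ (Set.range Cartier.cls)) ∧
    C = PointedCone.hull ℝ (R : Set (AG.N1 X)) ∧ (∀ ξ ∈ C, ξ.1 ∈ NefEff X) ∧
    (∀ ξ, ξ ∈ NefEff X ↔ ∃ g : AG.Aut X, Kp X ψ g ∧ ∃ η ∈ C, ξ = g.act η.1) ∧
    ∀ g : AG.Aut X, Kp X ψ g → (∃ ξ ∈ AG.N1 X, g.act ξ ≠ ξ) →
      ∀ ξ ∈ interior C, ∀ η ∈ interior C, ξ.1 ≠ g.act η.1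

/-- `S` is the local equation of a smooth divisor. -/
structure Eq1 (n : ℕ) (O : Subalgebra k K) (S : K) : Prop where
  mem : S ∈ O
  crd : Crd O S
  tri : S ∈ mx O → ¬ Dim O n → H1 O

/-- The divisor of `ψ / η ^ 2` is smooth. -/
def LP {n : ℕ} (b : Module.Basis (Fin (n + 2)) K Ω[K⁄k]) : Prop :=
  ∀ O ∈ X, ∃ a : Fin (n + 2) → K, (∀ i, a i ∈ O) ∧ dD b a ≠ 0 ∧
    (∀ a' : Fin (n + 2) → K, (∀ i, a' i ∈ O) → dD b a' / dD b a ∈ O) ∧ Eq1 n O (ψ * dD b a ^ 2)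

/-- A multiple of `-(K + Δ)` is effective. -/
def AP : Prop := ∃ (n j : ℕ) (d : Module.Basis (Fin n) K Ω[K⁄k]) (c : K), 0 < j ∧ c ≠ 0 ∧
  ∀ Q : Place k K, plO Q ∈ X → ∀ a : Fin n → K, (∀ i, a i ∈ plO Q) → dD d a ≠ 0 →
    0 ≤ Q.ord (c * dD d a ^ (2 * j)) ∧ (¬ Even (Q.ord ψ) → (j : ℤ) ≤ Q.ord (c * dD d a ^ (2 * j)))

end defs

/-- MOD. -/
def ModStmt : Prop := KRow fun X => ∀ Z ψ, Ref X → FS X → CEp X ψ → CT.Ct X Z → ConeP Z ψ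

/-- BRG. -/
def BrgStmt : Prop := ∀ (k K J : Type) [Field k] [IsAlgClosed k] [Field K] [Algebra k K]
  (𝒞 : Charts k K J) (N : Model 𝒞) (ψ : K), Nice (Sch.pts 𝒞) → ConeP (Sch.pts 𝒞) ψ →
    NefPair N.s (N.e.symm ψ)

/-- LPV. -/
def LpvStmt : Prop := ∀ (k K : Type) [Field k] [Field K] [Algebra k K] (X : Set (Subalgebra k K))
  (n : ℕ) (y : Fin (n + 2) → K) (W : Subalgebra k K → K) (ψ j : K), AlgebraicIndependent k y →
  Algebra.IsSeparable (IntermediateField.adjoin k (Set.range y)) K → j ≠ 0 → Vol X y W →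
  (∀ O ∈ X, IsLocalRing O ∧ Eq1 n O (ψ * (j / W O) ^ 2)) →
    ∃ b : Module.Basis (Fin (n + 2)) K Ω[K⁄k], LP X ψ b

/-- LOG. -/
def LogStmt : Prop := ∀ (k K J : Type) [Field k] [Field K] [Algebra k K]
  (𝒞 : Charts k K J) (N : Model 𝒞) (ψ : K) (n : ℕ) (b : Module.Basis (Fin (n + 2)) K Ω[K⁄k]),
  ψ ≠ 0 → LP (Sch.pts 𝒞) ψ b → LogCY N.s (N.e.symm ψ)

/-- IND. -/
def IndStmt : Prop := ∀ (k K : Type) [Field k] [CharZero k] [Field K] [Algebra k K] (n : ℕ)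
  (b : Module.Basis (Fin (n + 2)) K Ω[K⁄k]) (P : Place k K) (a : Fin (n + 2) → K) (i : Fin (n + 2)),
  (∀ j, a j ∈ plO P) → a i = P.unif → dD b a ≠ 0 →
  (∀ a' : Fin (n + 2) → K, (∀ j, a' j ∈ plO P) → dD b a' / dD b a ∈ plO P) →
    Ind (plO P) fun j => a (i.succAbove j)

/-- The conclusion of TER. -/
def Ter : Prop := ∀ (k K : Type) [Field k] [CharZero k] [IsAlgClosed k] [Field K] [Algebra k K]
  (X : Set (Subalgebra k K)) (ψ : K) (n : ℕ) (b : Module.Basis (Fin (n + 2)) K Ω[K⁄k])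
  (P : Place k K) (G : Set K), Nice X → ψ ≠ 0 → LP X ψ b → G.Finite →
  plO P ∈ Pts (Algebra.adjoin k G) → Frac (plO P) →
  (∀ a : Fin (n + 2) → K, (∀ j, a j ∈ plO P) → ψ * dD b a ^ 2 ∈ plO P) → plO P ∈ X

/-- TER. -/
def TerStmt : Prop := IndStmt → Ter

/-- CRP. -/
def CrpStmt : Prop := Ter → ∀ (k K : Type) [Field k] [CharZero k] [IsAlgClosed k] [Field K]
  [Algebra k K] (X Z : Set (Subalgebra k K)) (ψ : K) (n : ℕ)
  (b : Module.Basis (Fin (n + 2)) K Ω[K⁄k]), Nice X → Nice Z → ψ ≠ 0 → LP X ψ b → AP Z ψ →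
    ∀ P : Place k K, plO P ∈ Z → plO P ∈ X

/-- APS. -/
def ApsStmt : Prop := ∀ (k K J : Type) [Field k] [IsAlgClosed k] [Field K] [Algebra k K]
  (𝒞 : Charts k K J) (N : Model 𝒞) (ψ : K), Nice (Sch.pts 𝒞) → ψ ≠ 0 →
    AntiPair N.s (N.e.symm ψ) → AP (Sch.pts 𝒞) ψ

end Pool.Agent.MP_20d318_ag.PR
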